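import Pool.Agent.TH698.BL.LineProd

set_option autoImplicit false

/-!
# Nef divisors on manifolds with trivial canonical class and base loci (MP_5ee2d0_ag)

Q1 asks whether every nef line bundle `L` on a projective manifold `X` with `K_X` trivial and
`H^1(X, O) = 0` is semiample.  We show that it is so as soon as the codimension of the stable base
locus of `L` tends to infinity with the dimension of `X`, in the following weak sense: for some
`φ : ℕ → ℤ` which is unbounded above on the multiples of every `n ≥ 1`, the stable base locus of a
nef `L` contains no holomorphic retract `Z` of `X` (a submanifold of the same kind: projective,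
`K_Z` trivial, no holomorphic `1`-forms) whose codimension in `X` is at most `φ (dim X)`.

The proof considers the exterior powers of `L` on the powers of `X`.  All notions are the actual
ones, defined on complex manifolds of Mathlib, and nothing is assumed.
-/

open scoped Manifold ContDiff Topology
open Set Filter Pool.Agent.TH698.BL

namespace Pool.Agent.Results.MP_5ee2d0_ag.BaseLocusRetracts

/-- The product. -/
noncomputable def prod (X Y : CompactManifold) : CompactManifold where
  E := X.E × Y.E
  H := ModelProd X.H Y.H
  M := X.M × Y.M
  I := X.I.prod Y.I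

/-- The powers: `pow X k` is `X^(k+1)`. -/
noncomputable def pow (X : CompactManifold) : ℕ → CompactManifold
  | 0 => X
  | k + 1 => prod X (pow X k)

/-- The exterior powers of `L`. -/
noncomputable def boxPow {X : CompactManifold} (L : LineBundle X.I X.M) :
    (k : ℕ) → LineBundle (pow X k).I (pow X k).M
  | 0 => L
  | k + 1 => box (I' := (pow X k).I) (M' := (pow X k).M) L (boxPow L k)

theorem dim_prod (X Y : CompactManifold) : (prod X Y).dim = X.dim + Y.dim :=
  Module.finrank_prod

theorem dim_pow (X : CompactManifold) (k : ℕ) : (pow X k).dim = (k + 1) * X.dim := by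
  induction k with
  | zero => simp [pow]
  | succ k ih =>
    change (prod X (pow X k)).dim = _
    rw [dim_prod, ih]
    ring

theorem nef_pow {X : CompactManifold} (L : LineBundle X.I X.M) (h : IsNef L) (k : ℕ) :
    IsNef (boxPow L k) := by
  induction k with
  | zero => exact h
  | succ k ih => exact nef_box (I := X.I) (I' := (pow X k).I) L (boxPow L k) h ih

theorem projective_pow (X : CompactManifold) (h : IsProjective X.I X.M) (k : ℕ) :
    IsProjective (pow X k).I (pow X k).M := by
  induction k with
  | zero => exact h
  | succ k ih => exact projective_prod (I := X.I) (I' := (pow X k).I) h ih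

theorem trivial_pow (X : CompactManifold) (h : TrivialCanonical X.I X.M) (k : ℕ) :
    TrivialCanonical (pow X k).I (pow X k).M := by
  induction k with
  | zero => exact h
  | succ k ih => exact trivial_prod (I := X.I) (I' := (pow X k).I) h ih

theorem noForms_pow (X : CompactManifold) (h : NoForms X.I X.M) (k : ℕ) :
    NoForms (pow X k).I (pow X k).M := by
  induction k with
  | zero => exact h
  | succ k ih => exact noForms_prod (I := X.I) (I' := (pow X k).I) h ih

/-- The stable base locus is empty in dimension zero. -/
theorem base_zero (X : CompactManifold) (L : LineBundle X.I X.M) (h : X.dim = 0) :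
    BaseOf L = ∅ := by
  have hs : Subsingleton X.E := Module.finrank_zero_iff.1 h
  rw [eq_empty_iff_forall_notMem]
  intro x hx
  refine one_ne_zero (hx 1 le_rfl (fun _ => 1) ?_)
  intro y
  exact Eventually.of_forall fun z => (hasFDerivAt_of_subsingleton _ z).differentiableAt

/-- Every nef line bundle on a projective manifold with trivial canonical bundle and without
holomorphic `1`-forms is semiample if and only if the following holds for some function `φ` which is
unbounded above on the multiples of every positive integer: the stable base locus of a nef line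
bundle `L` on such a manifold `X` contains no submanifold of the same kind (the image of `f`) which
is a holomorphic retract (by `r`) of `X` and has codimension at most `φ (dim X)`. -/
theorem result :
    (∀ X : CompactManifold, TrivialCanonical X.I X.M → NoForms X.I X.M →
      ∀ L : LineBundle X.I X.M, IsNef L → IsSemiample L) ↔
    ∃ φ : ℕ → ℤ, (∀ n : ℕ, 1 ≤ n → ∀ c : ℤ, ∃ k : ℕ, c ≤ φ (k * n)) ∧
      ∀ X : CompactManifold, TrivialCanonical X.I X.M → NoForms X.I X.M →
        ∀ L : LineBundle X.I X.M, IsNef L →
          ∀ (Z : CompactManifold) (f : Z.M → X.M) (r : X.M → Z.M),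
            IsProjective Z.I Z.M → TrivialCanonical Z.I Z.M → NoForms Z.I Z.M →
            ContMDiff Z.I X.I ω f → ContMDiff X.I Z.I ω r → (∀ z, r (f z) = z) →
            (∀ z, f z ∈ BaseOf L) → φ X.dim < (X.dim : ℤ) - Z.dim := by
  constructor
  · intro h
    refine ⟨fun m => m, fun n hn c => ⟨c.toNat, ?_⟩, fun X hX hX' L hL Z f _ _ _ _ _ _ _ hb => ?_⟩
    · have h1 : c ≤ (c.toNat : ℤ) := Int.self_le_toNat c
      have h2 : c.toNat * 1 ≤ c.toNat * n := Nat.mul_le_mul_left _ hn
      rw [mul_one] at h2
      have h3 : (c.toNat : ℤ) ≤ ((c.toNat * n : ℕ) : ℤ) := by exact_mod_cast h2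
      exact h1.trans h3
    · obtain ⟨l, hl, hs⟩ := h X hX hX' L hL
      obtain ⟨z⟩ : Nonempty Z.M := inferInstance
      obtain ⟨c, hc, h0⟩ := hs (f z)
      exact absurd (hb z l hl c hc) h0
  · rintro ⟨φ, hφ, h⟩ X hX hX' L hL
    have hp : IsProjective X.I X.M := by
      obtain ⟨A, g, hA, -⟩ := hL
      exact ⟨A, g, hA⟩
    apply isSemiample_of_base
    by_contra hne
    obtain ⟨x, hx⟩ := nonempty_iff_ne_empty.2 hne
    have hd : 1 ≤ X.dim := by
      by_contra h0
      exact hne (base_zero X L (by omega))
    obtain ⟨k, hk⟩ := hφ X.dim hd (max (X.dim : ℤ) (max (φ 0 + 1) (φ X.dim + 1)))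
    have k1 : (X.dim : ℤ) ≤ φ (k * X.dim) := (le_max_left _ _).trans hk
    have k2 : φ 0 + 1 ≤ φ (k * X.dim) := ((le_max_left _ _).trans (le_max_right _ _)).trans hk
    have k3 : φ X.dim + 1 ≤ φ (k * X.dim) := ((le_max_right _ _).trans (le_max_right _ _)).trans hk
    obtain ⟨j, rfl⟩ : ∃ j, k = j + 2 := by
      rcases k with _ | _ | j
      · rw [zero_mul] at k2
        omega
      · rw [zero_add, one_mul] at k3
        omega
      · exact ⟨j, rfl⟩
    have h1 := h (pow X (j + 1)) (trivial_pow X hX (j + 1)) (noForms_pow X hX' (j + 1))
      (boxPow L (j + 1)) (nef_pow L hL (j + 1)) (pow X j) (fun z => (x, z)) Prod.snd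
      (projective_pow X hp j) (trivial_pow X hX j) (noForms_pow X hX' j)
      (contMDiff_const.prodMk contMDiff_id) contMDiff_snd (fun _ => rfl)
      (fun z => base_box (I := X.I) (I' := (pow X j).I) L (boxPow L j) hx z)
    rw [dim_pow, dim_pow] at h1
    have e' : (j + 1 + 1) * X.dim = (j + 2) * X.dim := by ring
    rw [e'] at h1
    have e : (((j + 2) * X.dim : ℕ) : ℤ) - (((j + 1) * X.dim : ℕ) : ℤ) = X.dim := by
      push_cast
      ring
    rw [e] at h1
    omega

end Pool.Agent.Results.MP_5ee2d0_ag.BaseLocusRetracts
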